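import Mathlib

set_option autoImplicit false

/-! HD-KER (helper466), part A: integrals of rational weights, the inequality of Cauchy and Schwarz. -/

namespace Pool.Agent.H168.HD

open MeasureTheory Set Filter

lemma int_pow {n : ℕ} (hn : 2 ≤ n) : Integrable (fun x : ℝ => 1 / (1 + |x|) ^ n) := by
  have h : (Module.finrank ℝ ℝ : ℝ) < (n : ℝ) := by
    rw [Module.finrank_self]
    exact_mod_cast hn
  refine (integrable_one_add_norm (E := ℝ) (μ := volume) h).congr (Eventually.of_forall fun x => ?_)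
  simp only [Real.norm_eq_abs]
  rw [Real.rpow_neg (by positivity), Real.rpow_natCast, one_div]

lemma int_scaled {n : ℕ} (hn : 2 ≤ n) {L : ℝ} (hL : 0 < L) :
    Integrable (fun v : ℝ => L / (1 + L * |v|) ^ n) := by
  have h := ((int_pow hn).comp_mul_left' hL.ne').const_mul L
  refine h.congr (Eventually.of_forall fun v => ?_)
  simp only
  rw [abs_mul, abs_of_pos hL]
  ring

lemma val_scaled (n : ℕ) {L : ℝ} (hL : 0 < L) :
    ∫ v : ℝ, L / (1 + L * |v|) ^ n = ∫ u : ℝ, 1 / (1 + |u|) ^ n := by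
  have h := Measure.integral_comp_mul_left (fun x : ℝ => 1 / (1 + |x|) ^ n) L
  have e : (fun v : ℝ => L / (1 + L * |v|) ^ n) = fun v : ℝ => L * (1 / (1 + |L * v|) ^ n) := by
    ext v
    rw [abs_mul, abs_of_pos hL]
    ring
  rw [e, integral_const_mul, h, abs_of_pos (inv_pos.2 hL), smul_eq_mul, ← mul_assoc,
    mul_inv_cancel₀ hL.ne', one_mul]

lemma int_pow_pos {n : ℕ} (hn : 2 ≤ n) : 0 < ∫ u : ℝ, 1 / (1 + |u|) ^ n := by
  refine (integral_pos_iff_support_of_nonneg (fun x => by positivity) (int_pow hn)).2 ?_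
  have : Function.support (fun x : ℝ => 1 / (1 + |x|) ^ n) = Set.univ := by
    rw [Set.eq_univ_iff_forall]
    intro x
    rw [Function.mem_support]
    positivity
  rw [this]
  simp

/-- The inequality of Cauchy and Schwarz with a weight. -/
lemma cs {h g : ℝ → ℝ} (h0 : ∀ v, 0 ≤ h v) (i0 : Integrable h) (i1 : Integrable fun v => h v * g v)
    (i2 : Integrable fun v => h v * g v ^ 2) (hS : 0 < ∫ v, h v) :
    (∫ v, h v * g v) ^ 2 ≤ (∫ v, h v) * ∫ v, h v * g v ^ 2 := by
  set S := ∫ v, h v with hSdef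
  set P := ∫ v, h v * g v with hP
  set Q := ∫ v, h v * g v ^ 2 with hQ
  have h1 : 0 ≤ ∫ v, h v * (S * g v - P) ^ 2 :=
    integral_nonneg fun v => mul_nonneg (h0 v) (sq_nonneg _)
  have e : (fun v => h v * (S * g v - P) ^ 2) =
      fun v => (S ^ 2 * (h v * g v ^ 2) - 2 * S * P * (h v * g v)) + P ^ 2 * h v := by
    ext v; ring
  have j1 : Integrable fun v => S ^ 2 * (h v * g v ^ 2) := i2.const_mul _
  have j2 : Integrable fun v => 2 * S * P * (h v * g v) := i1.const_mul _
  have j3 : Integrable fun v => S ^ 2 * (h v * g v ^ 2) - 2 * S * P * (h v * g v) := j1.sub j2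
  have j4 : Integrable fun v => P ^ 2 * h v := i0.const_mul _
  rw [e, integral_add j3 j4, integral_sub j1 j2, integral_const_mul, integral_const_mul,
    integral_const_mul, ← hSdef, ← hP, ← hQ] at h1
  have h2 : S * P ^ 2 ≤ S * (S * Q) := by nlinarith
  exact le_of_mul_le_mul_left h2 hS

end Pool.Agent.H168.HD
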