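import Pool.Agent.H466.HD.SA
import Pool.Agent.H282.E.Mom
import Pool.Agent.H168.HD.KERa

set_option autoImplicit false

/-! HD-KER (helper466), part B: mollified mean square of an average of zeta. -/

namespace Pool.Agent.H168.HD

open Complex MeasureTheory Set Filter Topology
open Pool.Agent.H477.E (MT bc Nn S_C1)
open Pool.Agent.H466.HD (Zt Mt S_KER)
open Pool.Agent.H282.E (GG GG_lower conv_GG fs_bd)
open Pool.Agent.H448R2.GC (fs)

noncomputable section

lemma Zt_cont : Continuous Zt := by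
  have h := Pool.Agent.H448R2.GC.F0.zeta_cont (1 / 2) (by norm_num)
  have e : Zt = fun t : ℝ => riemannZeta (((1 / 2 : ℝ) : ℂ) + (t : ℂ) * I) := by
    ext t
    unfold Zt
    push_cast
    rfl
  rw [e]
  exact h

lemma Mt_cont (θ T : ℝ) : Continuous (Mt θ T) := by
  unfold Mt MT
  exact (Pool.Agent.Y24.fs_diff _ _ _).continuous.comp (by fun_prop)

/-- linear growth of zeta on the critical line -/
lemma Zt_bd : ∃ A : ℝ, 1 ≤ A ∧ ∀ y : ℝ, ‖Zt y‖ ≤ A * (1 + |y|) := by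
  obtain ⟨C, hC, h⟩ := Pool.Agent.H448R2.GC.zeta_growth_mid
  refine ⟨C + 1, by linarith, fun y => ?_⟩
  have h1 := h (1 / 2 + (y : ℂ) * I) (by simp; norm_num) (by simp; norm_num)
  have e : (1 / 2 + (y : ℂ) * I).im = y := by simp
  rw [e] at h1
  unfold Zt
  refine h1.trans ?_
  have := abs_nonneg y
  gcongr
  linarith

/-- crude bound for the mollifier -/
lemma Mt_bd {θ T : ℝ} (hθ : 0 < θ) (hθ1 : θ ≤ 1 / 8) (hT : 0 < T) (hL : 1 ≤ Real.log T) (y : ℝ) :
    ‖Mt θ T y‖ ^ 2 ≤ T := by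
  have hL0 : 0 < Real.log T := by linarith
  have hc : 0 < θ * Real.log T / 5 := by positivity
  have h1 := fs_bd 5 (θ * Real.log T / 5) (θ * Real.log T) hc (s := 1 / 2 + (y : ℂ) * I) (by simp; norm_num)
  have h2 : ‖Mt θ T y‖ ≤ Real.exp (Real.log T / 2) := by
    unfold Mt MT
    refine h1.trans (Real.exp_le_exp.2 ?_)
    push_cast
    nlinarith
  calc ‖Mt θ T y‖ ^ 2 ≤ Real.exp (Real.log T / 2) ^ 2 := by gcongr
    _ = T := by
      rw [← Real.exp_nat_mul]
      have : ((2 : ℕ) : ℝ) * (Real.log T / 2) = Real.log T := by push_cast; ring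
      rw [this, Real.exp_log hT]

/-- the mixed moment -/
def JJ (θ T R v : ℝ) : ℝ := ∫ y in (T - R)..(T + R), ‖Zt (y + v)‖ ^ 2 * ‖Mt θ T y‖ ^ 2

/-- small shifts -/
lemma near (h : S_C1) {θ : ℝ} (hθ : 0 < θ) (hθ1 : θ ≤ 1 / 8) : ∃ C : ℝ, 0 < C ∧ ∀ᶠ T : ℝ in atTop,
    ∀ v : ℝ, |v| ≤ T / (4 * Real.log T) →
      JJ θ T (T / (4 * Real.log T)) v ≤ C * (T / Real.log T) * (1 + Real.log T * |v|) ^ 4 := by
  obtain ⟨C1, hC1, h1⟩ := conv_GG h hθ hθ1
  refine ⟨18 * C1, by positivity, ?_⟩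
  filter_upwards [h1, Real.tendsto_log_atTop.eventually_ge_atTop 1, eventually_ge_atTop 4]
    with T h1 hL hT4 v hv
  set L := Real.log T with hLdef
  have hL0 : 0 < L := by linarith
  have hT0 : 0 < T := by linarith
  set R := T / (4 * L) with hR
  have hR0 : 0 < R := by positivity
  set H := T / (2 * L) with hH
  have hH0 : 0 < H := by positivity
  have hHR : H = 2 * R := by
    rw [hH, hR]; field_simp; norm_num
  have hHT : H ≤ T / 2 := by
    rw [hH, div_le_div_iff₀ (by positivity) (by norm_num)]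
    nlinarith
  obtain ⟨hv1, hv2⟩ := abs_le.1 hv
  set w : ℂ := ((-v : ℝ) : ℂ) * I with hw
  have hwre : w.re = 0 := by rw [hw]; simp
  have hwn : ‖w‖ = |v| := by
    rw [hw, norm_mul, Complex.norm_I, mul_one, Complex.norm_real, Real.norm_eq_abs, abs_neg]
  obtain ⟨hint, hbd⟩ := h1 w (by rw [hwre]; simp) (1 / 2) le_rfl (by norm_num)
  have e1 : JJ θ T R v =
      ∫ y' in (T - R + v)..(T + R + v), ‖Zt y'‖ ^ 2 * ‖Mt θ T (y' - v)‖ ^ 2 := by
    unfold JJ
    rw [← intervalIntegral.integral_comp_add_right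
      (fun y' => ‖Zt y'‖ ^ 2 * ‖Mt θ T (y' - v)‖ ^ 2) v]
    refine intervalIntegral.integral_congr fun y _ => ?_
    simp only [add_sub_cancel_right]
  rw [e1, intervalIntegral.integral_of_le (by linarith)]
  have hpt : ∀ y ∈ Set.Ioc (T - R + v) (T + R + v),
      ‖Zt y‖ ^ 2 * ‖Mt θ T (y - v)‖ ^ 2 ≤
      36 * ‖GG 5 (θ * L / 5) (θ * L) T H w (((1 / 2 : ℝ) : ℂ) + (y : ℂ) * I)‖ ^ 2 := by
    intro y hy
    obtain ⟨hy1, hy2⟩ := hy
    have hy3 : 2 ≤ y := by linarith
    have b2 := GG_lower (k := 5) (c := θ * L / 5) (D := θ * L) (T := T) (H := H) (w := w)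
      (z := ((1 / 2 : ℝ) : ℂ) + (y : ℂ) * I) hH0 (by simp) (by simpa using hy3)
      (by
        have : (((1 / 2 : ℝ) : ℂ) + (y : ℂ) * I).im = y := by simp
        rw [this, abs_le]; constructor <;> linarith)
    have e2 : Zt y = riemannZeta (((1 / 2 : ℝ) : ℂ) + (y : ℂ) * I) := by
      unfold Zt; push_cast; rfl
    have e3 : Mt θ T (y - v) =
        fs 5 (θ * L / 5) (θ * L) ((((1 / 2 : ℝ) : ℂ) + (y : ℂ) * I) + w) := by
      unfold Mt MT
      rw [← hLdef]
      congr 1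
      rw [hw]; push_cast; ring
    rw [e2, e3]
    exact b2
  have hint2 : Integrable fun y : ℝ => 36 *
        ‖GG 5 (θ * L / 5) (θ * L) T H w (((1 / 2 : ℝ) : ℂ) + (y : ℂ) * I)‖ ^ 2 :=
    hint.const_mul 36
  have step1 : ∫ y in Set.Ioc (T - R + v) (T + R + v), ‖Zt y‖ ^ 2 * ‖Mt θ T (y - v)‖ ^ 2 ≤
      ∫ y : ℝ, 36 *
        ‖GG 5 (θ * L / 5) (θ * L) T H w (((1 / 2 : ℝ) : ℂ) + (y : ℂ) * I)‖ ^ 2 := by
    refine le_trans (integral_mono_of_nonneg (Eventually.of_forall fun y => by positivity)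
      hint2.integrableOn
      ((ae_restrict_iff' measurableSet_Ioc).mpr (Eventually.of_forall hpt))) ?_
    exact setIntegral_le_integral hint2 (Eventually.of_forall fun y => by positivity)
  refine step1.trans ?_
  rw [integral_const_mul]
  rw [hwre, hwn, neg_zero, max_self, mul_zero, Real.exp_zero, one_mul] at hbd
  refine (mul_le_mul_of_nonneg_left hbd (by norm_num : (0 : ℝ) ≤ 36)).trans (le_of_eq ?_)
  rw [hH]
  field_simp
  ring

/-- large shifts -/
lemma far : ∃ C : ℝ, 0 < C ∧ ∀ᶠ T : ℝ in atTop, ∀ θ : ℝ, 0 < θ → θ ≤ 1 / 8 →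
    ∀ v : ℝ, T / (4 * Real.log T) < |v| →
      JJ θ T (T / (4 * Real.log T)) v ≤ C * (T / Real.log T) * (1 + Real.log T * |v|) ^ 4 := by
  obtain ⟨A, hA, hz⟩ := Zt_bd
  refine ⟨162 * A ^ 2, by positivity, ?_⟩
  filter_upwards [Real.tendsto_log_atTop.eventually_ge_atTop 1, eventually_ge_atTop 4]
    with T hL hT4 θ hθ hθ1 v hv
  set L := Real.log T with hLdef
  have hL0 : 0 < L := by linarith
  have hT0 : 0 < T := by linarith
  set R := T / (4 * L) with hR
  have hR0 : 0 < R := by positivity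
  have hRT : R ≤ T := by
    rw [hR]; exact div_le_self hT0.le (by linarith)
  have hv0 : 0 ≤ |v| := abs_nonneg v
  have hTv : T ≤ 4 * (L * |v|) := by
    rw [hR, div_lt_iff₀ (by positivity)] at hv
    linarith
  have hvL : |v| ≤ L * |v| := le_mul_of_one_le_left hv0 hL
  set X := 1 + L * |v| with hX
  have hLv : 0 ≤ L * |v| := by positivity
  have hX1 : 1 ≤ X := by linarith
  have hpt : ∀ y ∈ Set.uIoc (T - R) (T + R),
      ‖‖Zt (y + v)‖ ^ 2 * ‖Mt θ T y‖ ^ 2‖ ≤ (A * (9 * X)) ^ 2 * T := by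
    intro y hy
    rw [Set.uIoc_of_le (by linarith)] at hy
    obtain ⟨hy1, hy2⟩ := hy
    rw [Real.norm_of_nonneg (by positivity)]
    have h1 : |y + v| ≤ 2 * T + |v| := by
      refine (abs_add_le _ _).trans ?_
      have : |y| ≤ 2 * T := abs_le.2 ⟨by linarith, by linarith⟩
      linarith
    have h2 : ‖Zt (y + v)‖ ≤ A * (9 * X) := by
      refine (hz _).trans ?_
      have : 1 + |y + v| ≤ 9 * X := by linarith
      gcongr
    exact mul_le_mul (by gcongr) (Mt_bd hθ hθ1 hT0 hL y) (by positivity) (by positivity)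
  have h1 := intervalIntegral.norm_integral_le_of_norm_le_const hpt
  have h2 : JJ θ T R v ≤ (A * (9 * X)) ^ 2 * T * |T + R - (T - R)| :=
    (Real.le_norm_self _).trans h1
  have e : |T + R - (T - R)| = T / (2 * L) := by
    rw [show T + R - (T - R) = 2 * R by ring, abs_of_pos (by positivity), hR]
    field_simp; norm_num
  rw [e] at h2
  refine h2.trans ?_
  have h3 : T ≤ 4 * X := by linarith
  have h4 : 0 ≤ T / L := by positivity
  calc (A * (9 * X)) ^ 2 * T * (T / (2 * L)) = 81 / 2 * A ^ 2 * X ^ 2 * T * (T / L) := by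
        field_simp; norm_num
    _ ≤ 81 / 2 * A ^ 2 * X ^ 2 * (4 * X) * (T / L) := by gcongr
    _ = 162 * A ^ 2 * (T / L) * X ^ 3 := by ring
    _ ≤ 162 * A ^ 2 * (T / L) * X ^ 4 := by
        gcongr
        norm_num

/-- **KER** -/
theorem ker (h : S_C1) : S_KER := by
  refine ⟨1 / 8, by norm_num, fun θ hθ hθ1 => ?_⟩
  obtain ⟨C1, hC1, h1⟩ := near h hθ hθ1
  obtain ⟨C2, hC2, h2⟩ := far
  obtain ⟨A, hA, hz⟩ := Zt_bd
  set S8 := ∫ u : ℝ, 1 / (1 + |u|) ^ 8 with hS8
  set S4 := ∫ u : ℝ, 1 / (1 + |u|) ^ 4 with hS4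
  have hS8p : 0 < S8 := int_pow_pos (by norm_num)
  have hS4p : 0 < S4 := int_pow_pos (by norm_num)
  obtain ⟨T0, hT0⟩ := eventually_atTop.1
    (h1.and (h2.and (Real.tendsto_log_atTop.eventually_ge_atTop 1)))
  refine ⟨S8 * (C1 + C2) * S4, max T0 10, by positivity, le_max_right _ _,
    fun T hT K B _ hB hKB => ?_⟩
  have hT10 : 10 ≤ T := (le_max_right _ _).trans hT
  obtain ⟨hn, hf, hL⟩ := hT0 T ((le_max_left _ _).trans hT)
  set L := Real.log T with hLdef
  have hL0 : 0 < L := by linarith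
  have hTpos : 0 < T := by linarith
  set R := T / (4 * L) with hR
  have hR0 : 0 < R := by positivity
  -- the weight
  set hv : ℝ → ℝ := fun v => L / (1 + L * |v|) ^ 8 with hvdef
  have hv0 : ∀ v, 0 ≤ hv v := fun v => by rw [hvdef]; positivity
  have hvle : ∀ v, hv v ≤ L / (1 + |v|) ^ 8 := by
    intro v
    have h5 : |v| ≤ L * |v| := le_mul_of_one_le_left (abs_nonneg v) hL
    rw [hvdef]
    simp only
    gcongr
  have hvc : Continuous hv := by
    rw [hvdef]
    refine continuous_const.div (by fun_prop) fun v => ?_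
    positivity
  have hvi : Integrable hv := int_scaled (by norm_num) hL0
  have hvS : ∫ v, hv v = S8 := val_scaled 8 hL0
  have hJ0 : ∀ v, 0 ≤ JJ θ T R v := fun v =>
    intervalIntegral.integral_nonneg (by linarith) fun y _ => by positivity
  have hJ : ∀ v, JJ θ T R v ≤ (C1 + C2) * (T / L) * (1 + L * |v|) ^ 4 := by
    intro v
    have hnn : 0 ≤ (T / L) * (1 + L * |v|) ^ 4 := by positivity
    rcases le_or_gt |v| R with hc | hc
    · refine (hn v hc).trans ?_
      nlinarith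
    · refine (hf θ hθ hθ1 v hc).trans ?_
      nlinarith
  -- pointwise bounds
  have hz2 : ∀ y v : ℝ, ‖Zt (y + v)‖ ^ 2 ≤ (A * (1 + |y|)) ^ 2 * (1 + |v|) ^ 2 := by
    intro y v
    rw [← mul_pow]
    have h5 := hz (y + v)
    have h6 : 1 + |y + v| ≤ (1 + |y|) * (1 + |v|) := by
      have := abs_add_le y v
      have := abs_nonneg y
      have := abs_nonneg v
      nlinarith
    have h7 : ‖Zt (y + v)‖ ≤ A * (1 + |y|) * (1 + |v|) := by
      rw [mul_assoc]
      exact h5.trans (by gcongr)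
    gcongr
  have hz1 : ∀ y v : ℝ, ‖Zt (y + v)‖ ≤ (A * (1 + |y|)) ^ 2 * (1 + |v|) ^ 2 + 1 := by
    intro y v
    have h5 := hz2 y v
    nlinarith [sq_nonneg (‖Zt (y + v)‖ - 1), norm_nonneg (Zt (y + v))]
  have hwt : ∀ v : ℝ, hv v * (1 + |v|) ^ 2 ≤ L * (1 / (1 + |v|) ^ 6) := by
    intro v
    have h5 : 0 < 1 + |v| := by positivity
    calc hv v * (1 + |v|) ^ 2 ≤ L / (1 + |v|) ^ 8 * (1 + |v|) ^ 2 := by
          gcongr; exact hvle v
      _ = L * (1 / (1 + |v|) ^ 6) := by field_simp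
  have hwi : Integrable fun v : ℝ => hv v * (1 + |v|) ^ 2 := by
    refine Integrable.mono' ((int_pow (n := 6) (by norm_num)).const_mul L)
      (Continuous.aestronglyMeasurable (by fun_prop)) (Eventually.of_forall fun v => ?_)
    rw [Real.norm_of_nonneg (mul_nonneg (hv0 v) (by positivity))]
    exact hwt v
  have i2 : ∀ y, Integrable fun v : ℝ => hv v * ‖Zt (y + v)‖ ^ 2 := by
    intro y
    refine Integrable.mono' (hwi.const_mul ((A * (1 + |y|)) ^ 2))
      (Continuous.aestronglyMeasurable ?_) (Eventually.of_forall fun v => ?_)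
    · exact hvc.mul ((Zt_cont.comp (by fun_prop)).norm.pow 2)
    · rw [Real.norm_of_nonneg (mul_nonneg (hv0 v) (by positivity))]
      have := mul_le_mul_of_nonneg_left (hz2 y v) (hv0 v)
      linarith
  have i1 : ∀ y, Integrable fun v : ℝ => hv v * ‖Zt (y + v)‖ := by
    intro y
    refine Integrable.mono' ((hwi.const_mul ((A * (1 + |y|)) ^ 2)).add hvi)
      (Continuous.aestronglyMeasurable ?_) (Eventually.of_forall fun v => ?_)
    · exact hvc.mul (Zt_cont.comp (by fun_prop)).norm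
    · rw [Real.norm_of_nonneg (mul_nonneg (hv0 v) (by positivity))]
      have := mul_le_mul_of_nonneg_left (hz1 y v) (hv0 v)
      simp only [Pi.add_apply]
      linarith
  -- the average
  have hF : ∀ y, ‖∫ v : ℝ, Zt (y + v) * K v‖ ≤ B * ∫ v, hv v * ‖Zt (y + v)‖ := by
    intro y
    rw [← integral_const_mul]
    refine norm_integral_le_of_norm_le ((i1 y).const_mul B) (Eventually.of_forall fun v => ?_)
    rw [norm_mul]
    have h5 : ‖K v‖ ≤ B * hv v := by
      refine (hKB v).trans (le_of_eq ?_)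
      rw [hvdef]
      ring
    calc ‖Zt (y + v)‖ * ‖K v‖ ≤ ‖Zt (y + v)‖ * (B * hv v) := by gcongr
      _ = _ := by ring
  set f : ℝ → ℝ → ℝ := fun y v => hv v * (‖Zt (y + v)‖ ^ 2 * ‖Mt θ T y‖ ^ 2) with hfdef
  have hpt : ∀ y, (‖∫ v : ℝ, Zt (y + v) * K v‖ * ‖Mt θ T y‖) ^ 2 ≤ B ^ 2 * S8 * ∫ v, f y v := by
    intro y
    have h5 := cs hv0 hvi (i1 y) (i2 y) (by rw [hvS]; exact hS8p)
    rw [hvS] at h5
    have h6 : ∫ v, f y v = (∫ v, hv v * ‖Zt (y + v)‖ ^ 2) * ‖Mt θ T y‖ ^ 2 := by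
      rw [← integral_mul_const]
      refine integral_congr_ae (Eventually.of_forall fun v => ?_)
      simp only [hfdef]
      ring
    have h7 : ‖∫ v : ℝ, Zt (y + v) * K v‖ ^ 2 ≤ B ^ 2 * (S8 * ∫ v, hv v * ‖Zt (y + v)‖ ^ 2) := by
      calc ‖∫ v : ℝ, Zt (y + v) * K v‖ ^ 2 ≤ (B * ∫ v, hv v * ‖Zt (y + v)‖) ^ 2 :=
            pow_le_pow_left₀ (norm_nonneg _) (hF y) 2
        _ = B ^ 2 * (∫ v, hv v * ‖Zt (y + v)‖) ^ 2 := by ring
        _ ≤ _ := by gcongr
    rw [h6, mul_pow]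
    calc ‖∫ v : ℝ, Zt (y + v) * K v‖ ^ 2 * ‖Mt θ T y‖ ^ 2 ≤
          B ^ 2 * (S8 * ∫ v, hv v * ‖Zt (y + v)‖ ^ 2) * ‖Mt θ T y‖ ^ 2 := by gcongr
      _ = _ := by ring
  -- Tonelli
  have hfc : Continuous (Function.uncurry f) := by
    have e : Function.uncurry f =
        fun p : ℝ × ℝ => hv p.2 * (‖Zt (p.1 + p.2)‖ ^ 2 * ‖Mt θ T p.1‖ ^ 2) := rfl
    rw [e]
    exact (hvc.comp continuous_snd).mul (((Zt_cont.comp (by fun_prop)).norm.pow 2).mul
      (((Mt_cont θ T).comp continuous_fst).norm.pow 2))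
  have hfi : Integrable (Function.uncurry f)
      ((volume.restrict (Set.Ioc (T - R) (T + R))).prod volume) := by
    refine Integrable.mono' ((hwi.const_mul ((A * (1 + (T + R))) ^ 2 * T)).comp_snd
      (volume.restrict (Set.Ioc (T - R) (T + R)))) hfc.aestronglyMeasurable ?_
    have hae : ∀ᵐ p : ℝ × ℝ ∂((volume.restrict (Set.Ioc (T - R) (T + R))).prod volume),
        p.1 ∈ Set.Ioc (T - R) (T + R) :=
      Measure.quasiMeasurePreserving_fst.ae (ae_restrict_mem measurableSet_Ioc)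
    filter_upwards [hae] with p hp
    obtain ⟨hp1, hp2⟩ := hp
    show ‖hv p.2 * (‖Zt (p.1 + p.2)‖ ^ 2 * ‖Mt θ T p.1‖ ^ 2)‖ ≤ _
    rw [Real.norm_of_nonneg (mul_nonneg (hv0 _) (by positivity))]
    have hRT : R ≤ T := by
      rw [hR]; exact div_le_self hTpos.le (by linarith)
    have h5 : |p.1| ≤ T + R := abs_le.2 ⟨by linarith, hp2⟩
    have h6 : ‖Zt (p.1 + p.2)‖ ^ 2 ≤ (A * (1 + (T + R))) ^ 2 * (1 + |p.2|) ^ 2 := by
      refine (hz2 _ _).trans ?_
      gcongr
    have h7 := Mt_bd hθ hθ1 hTpos hL p.1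
    calc hv p.2 * (‖Zt (p.1 + p.2)‖ ^ 2 * ‖Mt θ T p.1‖ ^ 2)
        ≤ hv p.2 * (((A * (1 + (T + R))) ^ 2 * (1 + |p.2|) ^ 2) * T) := by
          refine mul_le_mul_of_nonneg_left ?_ (hv0 _)
          exact mul_le_mul h6 h7 (by positivity) (by positivity)
      _ = _ := by ring
  have hab : T - R ≤ T + R := by linarith
  have hstep : ∫ y in (T - R)..(T + R), (‖∫ v : ℝ, Zt (y + v) * K v‖ * ‖Mt θ T y‖) ^ 2 ≤
      ∫ y in (T - R)..(T + R), B ^ 2 * S8 * ∫ v, f y v := by
    rw [intervalIntegral.integral_of_le hab, intervalIntegral.integral_of_le hab]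
    exact integral_mono_of_nonneg (Eventually.of_forall fun y => by positivity)
      (hfi.integral_prod_left.const_mul _) (Eventually.of_forall hpt)
  refine hstep.trans ?_
  rw [intervalIntegral.integral_const_mul]
  have hsw : ∫ y in (T - R)..(T + R), ∫ v, f y v = ∫ v, hv v * JJ θ T R v := by
    rw [intervalIntegral_integral_swap (by rw [Set.uIoc_of_le hab]; exact hfi)]
    refine integral_congr_ae (Eventually.of_forall fun v => ?_)
    simp only [hfdef]
    rw [intervalIntegral.integral_const_mul]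
    rfl
  rw [hsw]
  have hfin : ∫ v, hv v * JJ θ T R v ≤ (C1 + C2) * (T / L) * S4 := by
    rw [hS4, ← val_scaled 4 hL0, ← integral_const_mul]
    refine integral_mono_of_nonneg (Eventually.of_forall fun v => mul_nonneg (hv0 v) (hJ0 v))
      ((int_scaled (by norm_num) hL0).const_mul _) (Eventually.of_forall fun v => ?_)
    simp only
    calc hv v * JJ θ T R v ≤ hv v * ((C1 + C2) * (T / L) * (1 + L * |v|) ^ 4) :=
          mul_le_mul_of_nonneg_left (hJ v) (hv0 v)
      _ = (C1 + C2) * (T / L) * (L / (1 + L * |v|) ^ 4) := by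
          have h5 : 0 < 1 + L * |v| := by positivity
          rw [hvdef]
          field_simp
  calc B ^ 2 * S8 * ∫ v, hv v * JJ θ T R v ≤ B ^ 2 * S8 * ((C1 + C2) * (T / L) * S4) := by gcongr
    _ = _ := by ring

end

end Pool.Agent.H168.HD
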